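import Pool.Agent.Helper43.LZ.Wts

/-!
# TW1: the chain with the weights `exp (l_j)`

`W_j = exp (l_j) |a_{j-1}| |a_j| / σ ^ j`, `M_r = exp (-l_r) σ ^ r |a_1|² |a_r| / (σ ^ 4 |a_{r-1}|)`,
`σ = √|t|`. If the step inequality holds for `2 ≤ r < n` and `exp (2 l_r) |t| ^ r < 1`, then no word
in the `T_r`, `r ≤ n`, which contains `T_n`, has a fixed vector.
-/

set_option autoImplicit false

namespace Pool.Agent.Helper43.TW

open Finset Pool.Agent.Helper87.LZ Pool.Agent.Helper43.LZ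

/-- the weights -/
noncomputable def W (t : ℂ) (l : ℕ → ℝ) (j : ℕ) : ℝ :=
  Real.exp (l j) * (‖a t (j - 1)‖ * ‖a t j‖ / sg t ^ j)

/-- the multipliers -/
noncomputable def M (t : ℂ) (l : ℕ → ℝ) (r : ℕ) : ℝ :=
  Real.exp (-l r) * (sg t ^ r * ‖a t 1‖ ^ 2 * ‖a t r‖ / (sg t ^ 4 * ‖a t (r - 1)‖))

/-- the step inequality at `r` -/
def StepL (t : ℂ) (l : ℕ → ℝ) (r : ℕ) : Prop := ∀ x y : ℂ,
  W t l r * ‖a t (r + 1) / a t r * y - a t r / a t (r - 1) * x‖ ^ 2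
    + M t l (r + 1) * ‖y‖ ^ 2 ≤ M t l r * ‖x‖ ^ 2 + W t l (r + 1) * ‖y - x‖ ^ 2

/-- the weights satisfy the conditions of the frame -/
theorem wt_l {t : ℂ} (h0 : t ≠ 0) (h1 : ‖t‖ < 1) {n : ℕ} {l : ℕ → ℝ} (hl2 : 0 ≤ l 2)
    (hS : ∀ r, 2 ≤ r → r < n → StepL t l r)
    (hfin : ∀ r, 2 ≤ r → r ≤ n → Real.exp (2 * l r) * ‖t‖ ^ r < 1) :
    Wt t n (W t l) (M t l) := by
  have e0 := norm_pos_iff.mpr (a_ne h1 0)
  simp only [zero_add] at e0
  have e3 := sg_pos h0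
  refine ⟨?_, ?_, ?_, ?_⟩
  · intro k _
    have e1' := norm_pos_iff.mpr (a_ne h1 k)
    have e2' : 0 < ‖a t (k + 2)‖ := norm_pos_iff.mpr (a_ne h1 (k + 1))
    unfold W
    have e8 : k + 2 - 1 = k + 1 := by omega
    rw [e8]
    positivity
  · have e2' : 0 < ‖a t 2‖ := norm_pos_iff.mpr (a_ne h1 1)
    have h3 : M t l 2 = Real.exp (-l 2) * (‖a t 1‖ * ‖a t 2‖ / sg t ^ 2) := by
      unfold M
      have e8 : 2 - 1 = 1 := by omega
      rw [e8]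
      congr 1
      field_simp
    have h4 : W t l 2 = Real.exp (l 2) * (‖a t 1‖ * ‖a t 2‖ / sg t ^ 2) := rfl
    rw [h3, h4]
    refine mul_le_mul_of_nonneg_right (Real.exp_le_exp.mpr (by linarith)) (by positivity)
  · intro k hk x y
    exact hS (k + 2) (by omega) (by omega) x y
  · intro k hk
    have e1' := norm_pos_iff.mpr (a_ne h1 k)
    have e2' : 0 < ‖a t (k + 2)‖ := norm_pos_iff.mpr (a_ne h1 (k + 1))
    rw [norm_one_sub h1]
    have h5 := hfin (k + 2) (by omega) hk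
    rw [sg_sq.symm] at h5 ⊢
    have hexp : Real.exp (l (k + 2)) = Real.exp (2 * l (k + 2)) * Real.exp (-l (k + 2)) := by
      rw [← Real.exp_add]
      congr 1
      ring
    have e7 : W t l (k + 2) * ((sg t ^ 2) ^ (k + 1) * ‖a t 1‖ / ‖a t (k + 1)‖) ^ 2
        = Real.exp (2 * l (k + 2)) * (sg t ^ 2) ^ (k + 2) * M t l (k + 2) := by
      unfold W M
      rw [hexp]
      have e8 : k + 2 - 1 = k + 1 := by omega
      rw [e8]
      field_simp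
      ring
    rw [e7]
    have hM : 0 < M t l (k + 2) := by
      unfold M
      have e8 : k + 2 - 1 = k + 1 := by omega
      rw [e8]
      positivity
    exact mul_lt_of_lt_one_left hM h5

/-- **TW1.** -/
theorem chain {t : ℂ} (h0 : t ≠ 0) (h1 : ‖t‖ < 1) {n : ℕ} {l : ℕ → ℝ} (hl2 : 0 ≤ l 2)
    (hS : ∀ r, 2 ≤ r → r < n → StepL t l r)
    (hfin : ∀ r, 2 ≤ r → r ≤ n → Real.exp (2 * l r) * ‖t‖ ^ r < 1)
    (A : List ℕ) (hA : ∀ r ∈ A, r ≤ n) (hn : n ∈ A ∨ n ≤ 1) {L : ℕ → ℂ} (hL0 : L 0 = 0)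
    (hLn : L n = 0) (hfix : ∀ j ≤ n, act t A L j = L j) : ∀ j ≤ n, L j = 0 :=
  no_fixed h1 (wt_l h0 h1 hl2 hS hfin) A hA hn hL0 hLn hfix

end Pool.Agent.Helper43.TW
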